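import Pool.Agent.H762.Torus33Det

/-!
# The Rasmussen invariant does not give a homomorphism on the concordance group of links

The group `Ñ` of the question is generated by the classes `[L]` of the marked oriented links `L`
with nonzero determinant, and `[-L] = [L]⁻¹`, where `-L` is the mirror image with all orientations
reversed. So a homomorphism with `[L] ↦ s(L)` would give `s(-L) = - s(L)` for these links.

Let `L` be the closure of the braid `(σ₁ σ₂)³` with one of its three components reversed (three
fibres of the Hopf fibration, one with the opposite orientation). Then `det L = 4`, `s(L) = -2`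
and `s(-L) = 0`.

The definitions are in `Pool.Agent.H762.LeeDefs` and the diagram is in `Pool.Agent.H762.Torus33`.
The values of `s` are computed in Lee's complex of the diagram with six crossings: upper bounds
for the filtration degrees come from cocycles of the dual complex, lower bounds from explicit
chains.
-/

set_option autoImplicit false

namespace Pool.Agent.Results.MP_feb729_gt.RasmussenNotHom

open Pool.Agent.H762.LeeS

/-- The link `torus33` and its inverse `-torus33` have nonzero determinant, and their Rasmussen
invariants are `-2` and `0`. Therefore there is no homomorphism `[L] ↦ s(L)` on the group of the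
question. In the second part `G` is any group and `cl D m` is any assignment of an element `[L]`
of `G` to the diagrams `D` of marked oriented links `L` (the half-edge `m` is on the marked
component) such that `[-L] = [L]⁻¹` for the links `L` with nonzero determinant; this holds in the
group `Ñ`. The half-edge `prev m` of `D.neg` is the half-edge `m` of `D`. -/
theorem result :
    (torus33.NonzeroDet ∧ torus33.neg.NonzeroDet ∧
      torus33.rasmussen = -2 ∧ torus33.neg.rasmussen = 0) ∧
    ∀ (G : Type) [Group G] (cl : (n : ℕ) → Diagram n → HE n → G),
      (∀ (n : ℕ) (D : Diagram n) (m : HE n), D.NonzeroDet →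
        cl n D.neg (prev m) = (cl n D m)⁻¹) →
      ¬ ∃ φ : G →* Multiplicative ℤ, ∀ (n : ℕ) (D : Diagram n) (m : HE n), D.NonzeroDet →
        ((φ (cl n D m)).toAdd : ℚ) = D.rasmussen := by
  refine ⟨⟨detA, detB, rasmussenA, rasmussenB⟩, ?_⟩
  intro G _ cl hcl
  rintro ⟨φ, hφ⟩
  have h1 := hφ 6 torus33 (0, 0) detA
  have h2 := hφ 6 torus33.neg (prev (0, 0)) detB
  rw [hcl 6 torus33 (0, 0) detA, map_inv, toAdd_inv] at h2
  push_cast at h2
  rw [h1, rasmussenA, rasmussenB] at h2
  norm_num at h2

end Pool.Agent.Results.MP_feb729_gt.RasmussenNotHom
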